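import Pool.Agent.Q94.IZNotNeutral

/-!
# Neutrality of the atoms of the lattice of implication zroupoid varieties

`ZM` is neutral; `SL` and `BA` are not neutral.
-/

namespace Pool.Agent.Results.MP_be65b5_al.NeutralAtoms

open Pool.Agent.Q94.IZ

theorem result : Neutral ZM ∧ ¬ Neutral SL ∧ ¬ Neutral BA :=
  ⟨zm_neutral, SL_not_neutral, BA_not_neutral⟩

end Pool.Agent.Results.MP_be65b5_al.NeutralAtoms
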